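import Pool.Agent.H521R2.LHDefs
import Pool.Agent.H521R2.LHProof

/-!
# The Lemke-Howson algorithm does not have polynomial smoothed complexity

The definitions are in `Pool.Agent.H521R2.LHDefs`, the proof is in `Pool.Agent.H521R2.LHProof`.
-/

namespace Pool.Agent.Results.MP_159703_lc.LemkeHowson

open Pool.Agent.H521R2.LH

/-- **The Lemke-Howson algorithm does not have polynomial smoothed complexity**, neither under
uniform nor under Gaussian perturbations, whatever rule chooses the initial label (even a rule that
looks at the perturbed game). -/
theorem result (rule : LabelRule) :
    ¬ PolySmoothed rule uniformNoise ∧ ¬ PolySmoothed rule gaussianNoise :=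
  main rule

end Pool.Agent.Results.MP_159703_lc.LemkeHowson
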